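import Pool.Agent.Lib.MP_745d3a_ag.NB.Final

/-!
An indecomposable vector bundle of rank two on projective four-space over the complex numbers
which is not of Horrocks-Mumford type.

A vector bundle `E` of rank two on `P^4` is given by the graded module `⊕ₙ H⁰(E(n))` over
`S = ℂ[x_0, …, x_4]`; see `IsRankTwoBundle`. Two bundles are isomorphic if and only if their
modules are isomorphic in large degrees; see `SheafIso`.

The bundle is the homology of a monad `O(-1)^3 ⊕ O(-2)^2 → F → O(1)^3 ⊕ O(2)^2`, where the
symplectic bundle `F` of rank 12 is the middle syzygy of the module `Y ⊕ Λ²Y` over `K[y_1, y_2, y_3]`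
tensored with `K[z_1, z_2]/(z_1, z_2)`, for `y = (x_0², x_1², x_2²)` and `z = (x_3³, x_4³)`.
-/

namespace Pool.Agent.Results.MP_745d3a_ag.NewBundle

open Pool.Agent.Lib.MP_745d3a_ag.NewBundle

/-- A check of the definitions: for each finite self-map `f` of `P^4`, of degree `d`, the module
`hm f` is the module of a vector bundle of rank two with Chern classes `d` and `4 d²`; these are
the Chern classes of `f^*(F_HM)(-2 d)`. -/
theorem hm_bundle (f : Fin 5 → S) (d : ℕ) (hf : IsSelfMap f d) :
    IsRankTwoBundle (hm f) ∧ HasChern (hm f) d (4 * (d : ℤ) ^ 2) :=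
  Lib.MP_745d3a_ag.NewBundle.hm_bundle hf

/-- There is an indecomposable vector bundle of rank two on `P^4` over the complex numbers, with
Chern classes `c₁ = 0` and `c₂ = 32`, which is not isomorphic to `f^*(F_HM)(k)` for any finite
self-map `f` of `P^4` and any integer `k`, where `F_HM` is the Horrocks-Mumford bundle. -/
theorem result : ∃ E : GradedModule, IsRankTwoBundle E ∧ HasChern E 0 32 ∧ Indecomposable E ∧
    (∀ a b : ℤ, ¬ SheafIso E (split a b) 0) ∧ ¬ IsHorrocksMumfordType E :=
  main

end Pool.Agent.Results.MP_745d3a_ag.NewBundle
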