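import Pool.Agent.Lib.MP_745d3a_ag.NV.Final

/-!
Rank two vector bundles on projective four-space to which a vector field lifts.

The bundle is given by the module `M` of global sections of all its twists. A vector field on
projective four-space is given by a `5 × 5` matrix `A`, modulo scalar matrices, and lifts to the
bundle when there is an additive map `δ : M → M` of degree zero with
`δ (f m) = D f m + f δ m`, where `D` is the derivation of the polynomial ring attached to `A`.
-/

open MvPolynomial

namespace Pool.Agent.Results.MP_745d3a_ag.NoVectorField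

/-- Let `A` be a complex `5 × 5` matrix which is not a scalar matrix and let `D` be the derivation
of `ℂ[x_0, …, x_4]` with `D x_i = ∑ A_ij x_j`. Let `M` be a finitely generated graded reflexive
module of rank two, free at each prime not containing all variables, with an additive map `δ` of
degree zero such that `δ (f m) = D f m + f δ m`. Then `M` has a basis of two homogeneous
elements. -/
theorem result (A : Matrix (Fin 5) (Fin 5) ℂ)
    (hA : ∀ c : ℂ, A ≠ c • (1 : Matrix (Fin 5) (Fin 5) ℂ))
    (M : Type*) [AddCommGroup M] [Module (MvPolynomial (Fin 5) ℂ) M]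
    [Module.Finite (MvPolynomial (Fin 5) ℂ) M] [Module.IsReflexive (MvPolynomial (Fin 5) ℂ) M]
    (hrank : Module.finrank (MvPolynomial (Fin 5) ℂ) M = 2)
    (hfree : ∀ (p : Ideal (MvPolynomial (Fin 5) ℂ)) [p.IsPrime],
      (∃ i, (X i : MvPolynomial (Fin 5) ℂ) ∉ p) →
        Module.Free (Localization.AtPrime p) (LocalizedModule p.primeCompl M))
    (𝓜 : ℤ → AddSubgroup M) [DirectSum.Decomposition 𝓜]
    [SetLike.GradedSMul (weightedHomogeneousSubmodule ℂ (fun _ : Fin 5 => (1 : ℤ))) 𝓜]
    (D : Derivation ℂ (MvPolynomial (Fin 5) ℂ) (MvPolynomial (Fin 5) ℂ))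
    (hD : ∀ i, D (X i) = ∑ j, A i j • (X j : MvPolynomial (Fin 5) ℂ))
    (δ : M →+ M) (hδ : ∀ (f : MvPolynomial (Fin 5) ℂ) (m : M), δ (f • m) = D f • m + f • δ m)
    (hdeg : ∀ d, ∀ m ∈ 𝓜 d, δ m ∈ 𝓜 d) :
    ∃ (b : Module.Basis (Fin 2) (MvPolynomial (Fin 5) ℂ) M) (d : Fin 2 → ℤ),
      ∀ k, b k ∈ 𝓜 (d k) :=
  Lib.MP_745d3a_ag.PF.GA.no_vector_field A hA M hrank (fun p _ => hfree p) 𝓜 D hD δ hδ hdeg

end Pool.Agent.Results.MP_745d3a_ag.NoVectorField
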