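import Pool.Agent.Lib.MP_745d3a_ag.PB.Main

/-!
Rank two bundles on projective four-space whose second cohomology module has a pure resolution.

Let `E` be a rank two bundle on `P^4` and `N` the module of all `H^2(E(k))`. Its minimal free
resolution has length five and is self-dual with a skew middle matrix `Z`. If it is pure, it reads
`S^n <- S(-p)^b₁ <- S(-q)^b₂ <- S(-(e-q))^b₂ <- S(-(e-p))^b₁ <- S(-e)^n` with matrices
`X, Y, Z, Yᵀ, Xᵀ`, and (Horrocks, Decker) up to a twist `E` is the bundle of the monad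
`O(-(e-q))^r -> image of Z -> O(-q)^r` given by a constant matrix `U` which is isotropic for `Z`.
These data are the structure `PureMonad`.
-/

open MvPolynomial

namespace Pool.Agent.Results.MP_745d3a_ag.PureSecondCohomology

open Pool.Agent.Lib.MP_745d3a_ag.PB

/-- Let `W = (X, Y, Z, U)` be the data of the monad of a rank two bundle on `P^4` with pure second
cohomology module, with Betti numbers `n, b₁, b₂`, degrees `p, q, e` and `r` generators of
the first cohomology module. Then either `(n, b₁, b₂, r) = (2, 10, 20, 5)` and `q = 2 p`, `e = 5 p`,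
and there are five forms `f` of degree `p` without common zero and such data `W₀` of degrees
`1, 2, 5` from which `W` arises by substituting `f`; or `(n, b₁, b₂, r) = (7, 14, 21, 6)` and
`q = 4 p`, `e = 10 p`. -/
theorem result {K : Type*} [Field K] [IsAlgClosed K] [CharZero K] {n b₁ b₂ r p q e : ℕ}
    (W : PureMonad K n b₁ b₂ r p q e) :
    (n = 2 ∧ b₁ = 10 ∧ b₂ = 20 ∧ r = 5 ∧ q = 2 * p ∧ e = 5 * p ∧
      ∃ (f : Fin 5 → MvPolynomial (Fin 5) K) (W₀ : PureMonad K n b₁ b₂ r 1 2 5),
        (∀ i, (f i).IsHomogeneous p) ∧ (∀ v : Fin 5 → K, v ≠ 0 → ∃ i, eval v (f i) ≠ 0) ∧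
        W.X = W₀.X.map (bind₁ f) ∧ W.Y = W₀.Y.map (bind₁ f) ∧ W.Z = W₀.Z.map (bind₁ f) ∧
        W.U = W₀.U) ∨
    (n = 7 ∧ b₁ = 14 ∧ b₂ = 21 ∧ r = 6 ∧ q = 4 * p ∧ e = 10 * p) :=
  W.main

end Pool.Agent.Results.MP_745d3a_ag.PureSecondCohomology
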