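import Pool.Agent.Lib.MP_745d3a_ag.SB.Main

/-!
The symmetry group of an indecomposable rank two vector bundle on projective four-space is finite.

A rank two bundle `E` on `P^4` corresponds to its module `M` of sections of all twists: a finitely
generated reflexive graded module of rank two over `ℂ[x_0, …, x_4]`, free at each prime not containing
all the variables. `E` splits iff `M` has a homogeneous basis. For an invertible matrix `A` with
image `g` in `PGL_5` the bundle `g^* E` is isomorphic to `E` iff `M` has a bijective additive map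
which is semilinear for the substitution `x_i ↦ ∑ j, A i j x_j` and preserves the degrees.
-/

open MvPolynomial

namespace Pool.Agent.Results.MP_745d3a_ag.SymmetryBound

/-- `A` is invertible and `M` has a bijective additive map `φ` with `φ (f m) = (f ∘ A) φ m`, where
`f ∘ A` is `f` after the substitution `x_i ↦ ∑ j, A i j x_j`, which preserves the degrees. -/
def IsSymmetry {M : Type*} [AddCommGroup M] [Module (MvPolynomial (Fin 5) ℂ) M]
    (𝓜 : ℤ → AddSubgroup M) (A : Matrix (Fin 5) (Fin 5) ℂ) : Prop :=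
  IsUnit A.det ∧ ∃ φ : M ≃+ M,
    (∀ (f : MvPolynomial (Fin 5) ℂ) (m : M),
      φ (f • m) = (aeval (fun i => ∑ j, A i j • (X j : MvPolynomial (Fin 5) ℂ)) f :
        MvPolynomial (Fin 5) ℂ) • φ m) ∧
    ∀ d, ∀ m ∈ 𝓜 d, φ m ∈ 𝓜 d

/-- Let `M` be a finitely generated reflexive graded module of rank two over `ℂ[x_0, …, x_4]` which is
free at each prime not containing all the variables and has no homogeneous basis. Then there are
finitely many symmetries of which every symmetry is a scalar multiple. If `M` has a presentation by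
`p` homogeneous generators `m i` of degree `a i` and `q` relations `r j` whose entries `r j i` are
homogeneous of degree `b j - a i ≤ D`, and `B = (D + 2) ^ (5 + p + q)`, then for every symmetry `A`
some power `A ^ N` with `1 ≤ N ≤ B` is a scalar matrix, and `(5 B) ^ 250` symmetries suffice. -/
theorem result (M : Type*) [AddCommGroup M] [Module (MvPolynomial (Fin 5) ℂ) M]
    [Module.Finite (MvPolynomial (Fin 5) ℂ) M] [Module.IsReflexive (MvPolynomial (Fin 5) ℂ) M]
    (hrank : Module.finrank (MvPolynomial (Fin 5) ℂ) M = 2)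
    (hfree : ∀ (p : Ideal (MvPolynomial (Fin 5) ℂ)) [p.IsPrime],
      (∃ i, (X i : MvPolynomial (Fin 5) ℂ) ∉ p) →
        Module.Free (Localization.AtPrime p) (LocalizedModule p.primeCompl M))
    (𝓜 : ℤ → AddSubgroup M) [DirectSum.Decomposition 𝓜]
    [SetLike.GradedSMul (weightedHomogeneousSubmodule ℂ (fun _ : Fin 5 => (1 : ℤ))) 𝓜]
    (hno : ¬ ∃ (b : Module.Basis (Fin 2) (MvPolynomial (Fin 5) ℂ) M) (d : Fin 2 → ℤ),
      ∀ k, b k ∈ 𝓜 (d k)) :
    (∃ F : Finset (Matrix (Fin 5) (Fin 5) ℂ), (∀ A ∈ F, IsSymmetry 𝓜 A) ∧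
      ∀ A, IsSymmetry 𝓜 A → ∃ A' ∈ F, ∃ c : ℂ, A = c • A') ∧
    ∀ (p q D : ℕ) (a : Fin p → ℤ) (b : Fin q → ℤ) (m : Fin p → M)
      (r : Fin q → Fin p → MvPolynomial (Fin 5) ℂ),
      (∀ i, m i ∈ 𝓜 (a i)) →
      Submodule.span (MvPolynomial (Fin 5) ℂ) (Set.range m) = ⊤ →
      (∀ j i, IsWeightedHomogeneous (fun _ : Fin 5 => (1 : ℤ)) (r j i) (b j - a i)) →
      (∀ j i, b j - a i ≤ (D : ℤ)) →
      (∀ c : Fin p → MvPolynomial (Fin 5) ℂ, ∑ i, c i • m i = 0 ↔
        c ∈ Submodule.span (MvPolynomial (Fin 5) ℂ) (Set.range r)) →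
      (∀ A : Matrix (Fin 5) (Fin 5) ℂ, IsSymmetry 𝓜 A → ∃ N : ℕ, 1 ≤ N ∧
        N ≤ (D + 2) ^ (5 + p + q) ∧ ∃ c : ℂ, A ^ N = c • (1 : Matrix _ _ ℂ)) ∧
      ∃ F : Finset (Matrix (Fin 5) (Fin 5) ℂ), (∀ A ∈ F, IsSymmetry 𝓜 A) ∧
        F.card ≤ (5 * (D + 2) ^ (5 + p + q)) ^ 250 ∧
        ∀ A, IsSymmetry 𝓜 A → ∃ A' ∈ F, ∃ c : ℂ, A = c • A' :=
  Lib.MP_745d3a_ag.PF.SB.main M hrank hfree 𝓜 hno

end Pool.Agent.Results.MP_745d3a_ag.SymmetryBound
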